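import Pool.Agent.Lib.MP_651af7_nt.Un.UpD
import Pool.Agent.Lib.MP_651af7_nt.Un.Pos
import Pool.Agent.Lib.MP_651af7_nt.Cu.VModel

namespace Pool.Agent.Results.MP_651af7_nt.BirationalAbelian

open Height MvPolynomial NumberField Pool.Agent.Lib.MP_651af7_nt Bx Ds Et

/-- Vojta's inequality, with the positive part of the canonical height and with the height of a
subscheme of codimension two added, for points of
bounded degree on every smooth projective variety with a finite étale cover birational to an abelian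
variety. The exceptional form does not depend on the field, the constant does. -/
theorem result (k : Type) [Field k] [NumberField k] (N N' M g : ℕ)
    (I : Ideal (MvPolynomial (Fin N) k)) (hI : Var I) (hs : Smooth I g)
    (I' : Ideal (MvPolynomial (Fin N') (AlgebraicClosure k))) (hI' : Var I')
    (f : (Fin N' → AlgebraicClosure k) → Fin N → AlgebraicClosure k)
    (hf : Etale I' (I.map (MvPolynomial.map (algebraMap k (AlgebraicClosure k)))) f)
    (J : Ideal (MvPolynomial (Fin M) (AlgebraicClosure k))) (hJ : Abelian J) (hb : Birat I' J)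
    (s d : ℕ) (Y : Fin s → MvPolynomial (Fin N) k) (hY : ∀ j, (Y j).IsHomogeneous d)
    (hc : 2 ≤ ((Ideal.span (Set.range Y)).map (Ideal.Quotient.mk I)).height) (ε : ℝ)
    (hε : 0 < ε) (r : ℕ) : ∃ (Θ : MvPolynomial (Fin N) k) (t : ℕ), Θ.IsHomogeneous t ∧ Θ ∉ I ∧
      ∀ (L : Type) [Field L] [NumberField L] [Algebra k L], Module.finrank k L ≤ r →
      ∀ (m e : ℕ) (D : Fin m → MvPolynomial (Fin N) L) (S : Finset (FinitePlace L)),
      (∀ j, (D j).IsHomogeneous e) → ∃ C : ℝ, ∀ x : Fin N → L, x ≠ 0 → (∀ P ∈ I, aeval x P = 0) →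
        aeval x Θ ≠ 0 → (fun j => eval x (D j)) ≠ 0 → (fun j => aeval x (Y j)) ≠ 0 ∧
        Module.finrank L (tsp I x) = g + 1 ∧
        ∀ β : Fin (g + 1) → Fin N → L, LinearIndependent L β → (∀ l, β l ∈ tsp I x) →
        (∑ w : InfinitePlace L, w.mult * lam w.1 D e x + ∑ w ∈ S, lam w.1 D e x) +
          max (hK x β) 0 + (d * logHeight x - logHeight fun j => aeval x (Y j)) ≤
          ε * logHeight x + C := by
  obtain ⟨A, _, co, h1, h2⟩ := hJ
  obtain ⟨Θ, t, a1, a2, a3⟩ := Un.of_modelU hI hs hI' hf h1 (Cu.model h1 h2) hb (half_pos hε) r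
  obtain ⟨Θ', t', b1, b2, b3⟩ := Un.part_modelU hI hs hI' hf h1 (Cu.model h1 h2) hb hY
    (Hy.cod_of_height hI.isPrime hs hc) (half_pos hε) r
  refine ⟨Θ * Θ', _, a1.mul b1, fun h => (hI.isPrime.mem_or_mem h).elim a2 b2,
    fun L _ _ _ hL m e D S hD => ?_⟩
  obtain ⟨C, hC⟩ := Un.pos_part (half_pos hε)
    (P := fun x => x ≠ 0 ∧ (∀ P ∈ I, aeval x P = 0) ∧ aeval x Θ ≠ 0)
    (Q := fun x β => LinearIndependent L β ∧ ∀ l, β l ∈ tsp I x)
    (fun m e D S hD => (a3 L hL m e D S hD).imp fun C h x hx xD β hβ =>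
      h x hx.1 hx.2.1 hx.2.2 xD β hβ.1 hβ.2) m e D S hD
  obtain ⟨C', b3⟩ := b3 L hL
  refine ⟨C + C', fun x x0 xz xΘ xD => ?_⟩
  rw [map_mul, mul_ne_zero_iff] at xΘ
  obtain ⟨c3, c4⟩ := b3 x x0 xz xΘ.2
  exact ⟨c3, Un.smooth_pt hs x0 xz, fun β h3 h4 => by
    linarith [hC x ⟨x0, xz, xΘ.1⟩ xD β ⟨h3, h4⟩]⟩

end Pool.Agent.Results.MP_651af7_nt.BirationalAbelian
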