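import Pool.Agent.Lib.MP_651af7_nt.Qp.Sf

/-!
Quadratic integral points on the complement of six lines in the plane.
-/

namespace Pool.Agent.Results.MP_651af7_nt.QuadraticPoints

open Pool.Agent.Lib.MP_651af7_nt

theorem result (l : Fin 6 → Fin 3 → ℚ)
    (hl : ∀ f : Fin 3 → Fin 6, Function.Injective f → (Matrix.of fun j => l (f j)).det ≠ 0)
    (hQ : ∀ Q : QuadraticForm ℚ (Fin 3 → ℚ), (∀ i, Q (l i) = 0) → Q = 0) :
    ∃ (d : ℕ) (Θ : MvPolynomial (Fin 3) ℚ), Θ ≠ 0 ∧ Θ.IsHomogeneous d ∧ ∀ S : Finset ℕ,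
      ∃ F : Finset (Fin 3 → ℂ), ∀ (K : Type) [Field K] [NumberField K],
        Module.finrank ℚ K = 2 → ∀ x : Fin 3 → K, (∀ i, ∑ a, (l i a : K) * x a ≠ 0) →
        (∀ i j (p : ℕ), p.Prime → p ∉ S →
          padicValRat p (Algebra.norm ℚ (∑ a, (l i a : K) * x a)) =
            padicValRat p (Algebra.norm ℚ (∑ a, (l j a : K) * x a))) →
        MvPolynomial.aeval x Θ ≠ 0 →
        ∀ σ : K →+* ℂ, ∃ z ∈ F, ∃ r : ℂ, ∀ a, σ (x a) = r * z a :=
  Qp.sfree hl hQ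

end Pool.Agent.Results.MP_651af7_nt.QuadraticPoints
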