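import Pool.Agent.Lib.MP_651af7_nt.Sn.Red

namespace Pool.Agent.Results.MP_651af7_nt.SchmidtNochka

open Height MvPolynomial NumberField

/-- The theorem of Schmidt and Nochka for closed subschemes `Y j` with weights `c j` on a
projective variety of dimension `n`: if the total weight of the `Y j` through a subvariety of
dimension `r` is at most `μ (n - r) + E`, the constant is `μ (n + 1) + 2 E`. For `c = 1`, `μ = 1`,
`E = l - n` this is `l`-subgeneral position and the constant `2 l - n + 1`. -/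
theorem result (k : Type) [Field k] [NumberField k] (N q s n : ℕ)
    (I : Ideal (MvPolynomial (Fin N) k)) (hp : I.IsPrime)
    (hI : ∀ P ∈ I, ∀ e, homogeneousComponent e P ∈ I)
    (hn : ringKrullDim (MvPolynomial (Fin N) k ⧸ I) = (n + 1 : ℕ))
    (F : Fin q → Fin s → MvPolynomial (Fin N) k) (d : Fin q → ℕ) (hd : ∀ j, 0 < d j)
    (hF : ∀ j i, (F j i).IsHomogeneous (d j)) (h0 : ∀ j, ∃ i, F j i ∉ I)
    (c : Fin q → ℝ) (hc : ∀ j, 0 < c j) (μ E : ℝ) (hμ : 0 < μ)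
    (hl : ∀ (J : Finset (Fin q)) (r : ℕ), ((r + 1 : ℕ) : WithBot ℕ∞) ≤ ringKrullDim
      (MvPolynomial (Fin N) k ⧸ (I ⊔ Ideal.span {P | ∃ j ∈ J, ∃ i, F j i = P})) →
      ∑ j ∈ J, c j ≤ μ * (n - r) + E)
    (ε : ℝ) (hε : 0 < ε) :
    ∃ (Θ : MvPolynomial (Fin N) k) (e : ℕ), Θ.IsHomogeneous e ∧ Θ ∉ I ∧
      ∀ S : Finset (FinitePlace k), ∃ C : ℝ, ∀ x : Fin N → k, x ≠ 0 → (∀ P ∈ I, eval x P = 0) →
        eval x Θ ≠ 0 → (∀ j, ∃ i, eval x (F j i) ≠ 0) ∧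
        ∑ j, c j / d j * (∑ v : InfinitePlace k,
            v.mult * Real.log ((⨆ a, v (x a)) ^ d j / ⨆ i, v (eval x (F j i))) +
          ∑ v ∈ S, Real.log ((⨆ a, v (x a)) ^ d j / ⨆ i, v (eval x (F j i)))) ≤
        (μ * (n + 1) + 2 * E + ε) * logHeight x + C :=
  Lib.MP_651af7_nt.Sn.main I hp hI hn F d hd hF h0 c hc μ E hμ hl ε hε

/-- The case of `l`-subgeneral position, with the usual definition. -/
theorem subgeneral (k : Type) [Field k] [NumberField k] (N q s n l : ℕ)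
    (I : Ideal (MvPolynomial (Fin N) k)) (hp : I.IsPrime)
    (hI : ∀ P ∈ I, ∀ e, homogeneousComponent e P ∈ I)
    (hn : ringKrullDim (MvPolynomial (Fin N) k ⧸ I) = (n + 1 : ℕ))
    (F : Fin q → Fin s → MvPolynomial (Fin N) k) (d : Fin q → ℕ) (hd : ∀ j, 0 < d j)
    (hF : ∀ j i, (F j i).IsHomogeneous (d j)) (h0 : ∀ j, ∃ i, F j i ∉ I)
    (hl : ∀ J : Finset (Fin q), J.card ≤ l + 1 →
      ringKrullDim (MvPolynomial (Fin N) k ⧸ (I ⊔ Ideal.span {P | ∃ j ∈ J, ∃ i, F j i = P})) ≤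
        (l + 1 - J.card : ℕ))
    (ε : ℝ) (hε : 0 < ε) :
    ∃ (Θ : MvPolynomial (Fin N) k) (e : ℕ), Θ.IsHomogeneous e ∧ Θ ∉ I ∧
      ∀ S : Finset (FinitePlace k), ∃ C : ℝ, ∀ x : Fin N → k, x ≠ 0 → (∀ P ∈ I, eval x P = 0) →
        eval x Θ ≠ 0 → (∀ j, ∃ i, eval x (F j i) ≠ 0) ∧
        ∑ j, (∑ v : InfinitePlace k,
            v.mult * Real.log ((⨆ a, v (x a)) ^ d j / ⨆ i, v (eval x (F j i))) +
          ∑ v ∈ S, Real.log ((⨆ a, v (x a)) ^ d j / ⨆ i, v (eval x (F j i)))) / d j ≤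
        (2 * l - n + 1 + ε) * logHeight x + C :=
  Lib.MP_651af7_nt.Sn.plain I hp hI hn F d hd hF h0 hl ε hε

end Pool.Agent.Results.MP_651af7_nt.SchmidtNochka
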